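import Pool.Agent.Run7.h185.To.Main

/-!
# Parity of the coefficients of `T_o(q)`
-/

set_option autoImplicit false

namespace Pool.Agent.Results.MP_0c59fa_nt.ParityProved

open Finset PowerSeries Run7.h185.To

/-- Let `Tser` be the series `T_o(q) = ∑_m q^{2m} (-q;q)_{2m} / (q;q²)_{m+1}` with integer
coefficients `t_o(n)`; `toTerm m` is its `m`-th term.
1. (The definition is the right one.) The coefficient of `q^n` in `T_o(q)` is the coefficient of
   `q^n` in every partial sum with more than `n` terms.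
2. For every `n`, `t_o(n)` is congruent modulo 2 to the (finite) number of pairs `(x, y)` of
   integers with `0 < x < 2 y` and `x² + 2 y² = 8 n + 9`.
3. If `8 n + 9` is not of the form `x² + 2 y²`, then `t_o(n)` is even. -/
theorem result :
    (∀ n N : ℕ, n < N → coeff n Tser = coeff n (∑ m ∈ range N, toTerm m)) ∧
    (∀ n : ℕ, {p : ℕ × ℕ | 0 < p.1 ∧ p.1 < 2 * p.2 ∧ p.1 ^ 2 + 2 * p.2 ^ 2 = 8 * n + 9}.Finite ∧
      (coeff n Tser : ℤ) ≡
        ({p : ℕ × ℕ | 0 < p.1 ∧ p.1 < 2 * p.2 ∧ p.1 ^ 2 + 2 * p.2 ^ 2 = 8 * n + 9}.ncard : ℤ)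
          [ZMOD 2]) ∧
    (∀ n : ℕ, (¬ ∃ x y : ℤ, 8 * (n : ℤ) + 9 = x ^ 2 + 2 * y ^ 2) → Even (coeff n Tser : ℤ)) :=
  ⟨coeff_partial, fun n => ⟨Rp_finite n, parity' n⟩, main⟩

end Pool.Agent.Results.MP_0c59fa_nt.ParityProved
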